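import Pool.Agent.W223.RD.Stms

set_option autoImplicit false

/-! Project RD (helper223), part D2 (backup copy). -/

namespace Pool.Agent.W320.RD

open Finset Pool.Agent.W223.RD

theorem geom_id (p l : ℕ) (hp : 1 ≤ p) : (∑ i ∈ range l, p ^ i) * (p - 1) + 1 = p ^ l := by
  obtain ⟨x, rfl⟩ : ∃ x, p = x + 1 := ⟨p - 1, by omega⟩
  have := geom_sum_mul_add x l
  simpa using this

theorem geom_ge (p l : ℕ) (hl : 1 ≤ l) : p ^ (l - 1) ≤ ∑ i ∈ range l, p ^ i := by
  apply single_le_sum (f := fun i => p ^ i) (fun i _ => Nat.zero_le _)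
  rw [mem_range]
  omega

theorem geom_odd (p l : ℕ) (hp : Odd p) (hl : Odd l) : Odd (∑ i ∈ range l, p ^ i) := by
  rw [Finset.odd_sum_iff_odd_card_odd]
  have : (range l).filter (fun i => Odd (p ^ i)) = range l := by
    rw [filter_true_of_mem]
    intro i _
    exact hp.pow
  rw [this, card_range]
  exact hl

theorem tD2 : StmtD2 := by
  intro m l p hp hl hm hlt hrep hbig
  set w := m.primeFactors.card with hw
  set y := ∑ i ∈ range l, p ^ i with hy
  have hl9 : 8 < l := by omega
  have hlodd : Odd l := hl.odd_of_ne_two (by omega)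
  have hid := geom_id p l hp.one_lt.le
  rw [← hy] at hid
  have hge : p ^ (l - 1) ≤ y := geom_ge p l (by omega)
  have hp2 := hp.two_le
  have hy1 : 1 < y := by
    refine lt_of_lt_of_le ?_ hge
    exact Nat.one_lt_pow (by omega) hp.one_lt
  have hy0 : y ≠ 0 := by omega
  -- `p` is odd
  have hpodd : Odd p := by
    rcases hp.eq_two_or_odd' with h2 | h2
    · exfalso
      have hq : (y.minFac).Prime := Nat.minFac_prime (by omega)
      have h3 := hrep _ hq (Nat.minFac_dvd y)
      rcases (Nat.Prime.dvd_mul hq).1 h3 with h4 | h4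
      · have h5 : y.minFac = 2 := (Nat.prime_dvd_prime_iff_eq hq Nat.prime_two).1 h4
        have h6 : 2 ∣ y := by rw [← h5]; exact Nat.minFac_dvd y
        rw [h2] at hid
        obtain ⟨k, hk⟩ := h6
        have h7 : 2 ∣ 2 ^ l := dvd_pow_self 2 (by omega)
        omega
      · have := hlt _ hq h4
        have := hq.two_le
        omega
    · exact h2
  have hyodd : Odd y := geom_odd p l hpodd hlodd
  have hfac : ∀ q : ℕ, q.Prime → q ∣ y → q ≠ 2 ∧ q ∣ m := by
    intro q hq hqy
    have h2 : q ≠ 2 := by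
      rintro rfl
      exact (Nat.not_even_iff_odd.2 hyodd) (even_iff_two_dvd.2 hqy)
    refine ⟨h2, ?_⟩
    rcases (Nat.Prime.dvd_mul hq).1 (hrep q hq hqy) with h4 | h4
    · exact absurd ((Nat.prime_dvd_prime_iff_eq hq Nat.prime_two).1 h4) h2
    · exact h4
  have hsub : y.primeFactors ⊆ m.primeFactors := by
    intro q hq
    rw [Nat.mem_primeFactors] at hq ⊢
    exact ⟨hq.1, (hfac q hq.1 hq.2.1).2, hm.ne'⟩
  obtain ⟨q, hqy, hqb⟩ : ∃ q ∈ y.primeFactors, p ^ 8 ≤ q ^ y.factorization q := by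
    by_contra hcon
    push Not at hcon
    have h1 : y = ∏ q ∈ y.primeFactors, q ^ y.factorization q := by
      conv_lhs => rw [← Nat.factorization_prod_pow_eq_self hy0]
      rfl
    have h2 : y ≤ ∏ _q ∈ y.primeFactors, p ^ 8 := by
      calc y = ∏ q ∈ y.primeFactors, q ^ y.factorization q := h1
        _ ≤ ∏ _q ∈ y.primeFactors, p ^ 8 := prod_le_prod' fun q hq => (hcon q hq).le
    rw [prod_const, ← pow_mul] at h2
    have h3 : y.primeFactors.card ≤ w := card_le_card hsub
    have h4 : p ^ (8 * y.primeFactors.card) < p ^ (l - 1) :=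
      Nat.pow_lt_pow_right hp.one_lt (by omega)
    omega
  have hq : q.Prime := (Nat.mem_primeFactors.1 hqy).1
  have hqdy : q ∣ y := (Nat.mem_primeFactors.1 hqy).2.1
  obtain ⟨hq2, hqm⟩ := hfac q hq hqdy
  have hqp : q < p := hlt q hq hqm
  have hq3 : 2 < q := lt_of_le_of_ne hq.two_le (Ne.symm hq2)
  refine ⟨q, Nat.mem_primeFactors.2 ⟨hq, hqm, hm.ne'⟩, hq3, y.factorization q, hqb, ?_⟩
  have hdy : q ^ y.factorization q ∣ y := Nat.ordProj_dvd y q
  have hyl : y ∣ p ^ l - 1 := ⟨p - 1, by omega⟩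
  haveI : Fact q.Prime := ⟨hq⟩
  have hqnp : ¬ q ∣ p := by
    intro h
    have := (Nat.prime_dvd_prime_iff_eq hq hp).1 h
    omega
  have hp0 : ((p : ℕ) : ZMod q) ≠ 0 := by
    rw [Ne, ZMod.natCast_eq_zero_iff]
    exact hqnp
  have hpl : ((p : ℕ) : ZMod q) ^ l = 1 := by
    have h1 : ((p ^ l : ℕ) : ZMod q) = 1 := by
      rw [← hid]
      push_cast
      have : ((y : ℕ) : ZMod q) = 0 := (ZMod.natCast_eq_zero_iff y q).2 hqdy
      rw [this, zero_mul, zero_add]
    rw [← h1]
    push_cast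
    rfl
  have hord : orderOf ((p : ℕ) : ZMod q) ∣ l := orderOf_dvd_of_pow_eq_one hpl
  have hfer : ((p : ℕ) : ZMod q) ^ (q - 1) = 1 := ZMod.pow_card_sub_one_eq_one hp0
  have hlq : l ∣ q - 1 := by
    rcases (Nat.dvd_prime hl).1 hord with h1 | h1
    · exfalso
      have h2 : ((p : ℕ) : ZMod q) = 1 := orderOf_eq_one_iff.1 h1
      have h3 : q ∣ p - 1 := by
        have h4 : (((p - 1 : ℕ) : ℕ) : ZMod q) = 0 := by
          rw [Nat.cast_sub hp.one_lt.le, h2]
          simp
        exact (ZMod.natCast_eq_zero_iff _ _).1 h4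
      have h5 := padicValNat.pow_sub_pow (p := q) (hq.odd_of_ne_two hq2) (x := p) (y := 1)
        hp.one_lt (by simpa using h3) hqnp (n := l) hl.ne_zero
      rw [one_pow] at h5
      have h6 : p ^ l - 1 = y * (p - 1) := by omega
      rw [h6, padicValNat.mul hy0 (by omega)] at h5
      have h7 : padicValNat q y = padicValNat q l := by omega
      have h8 : padicValNat q l ≤ 1 := by
        by_cases h9 : q = l
        · rw [h9]
          haveI : Fact l.Prime := ⟨hl⟩
          rw [padicValNat_self]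
        · have : ¬ q ∣ l := fun h => h9 ((Nat.prime_dvd_prime_iff_eq hq hl).1 h)
          rw [padicValNat.eq_zero_of_not_dvd this]
          omega
      have h9 : y.factorization q ≤ 1 := by
        rw [Nat.factorization_def y hq, h7]
        exact h8
      have h10 : q ^ y.factorization q ≤ q ^ 1 := Nat.pow_le_pow_right hq.pos h9
      have h11 : p ^ 1 ≤ p ^ 8 := Nat.pow_le_pow_right hp.pos (by norm_num)
      rw [pow_one] at h10 h11
      omega
    · rw [← h1]
      exact orderOf_dvd_of_pow_eq_one hfer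
  obtain ⟨k, hk⟩ := hlq
  have h1 : p ^ l - 1 ∣ p ^ (q - 1) - 1 := by
    have := Nat.sub_dvd_pow_sub_pow (p ^ l) 1 k
    rwa [one_pow, ← pow_mul, ← hk] at this
  exact hdy.trans (hyl.trans h1)

end Pool.Agent.W320.RD
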