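import Mathlib

/-! Statements for project RD: only `O(X exp(-(log X)^(1/3)/100))` integers `R ≤ X` are the radical
of an integer `n > 1` such that every prime factor of `σ(n)` divides `2 n` (for example of an odd
perfect number). -/

namespace Pool.Agent.W223.RD

open Finset

noncomputable section

/-- Every prime factor of `σ(n)` divides `2 n`. -/
def Closed (n : ℕ) : Prop :=
  1 < n ∧ ∀ q : ℕ, q.Prime → q ∣ ArithmeticFunction.sigma 1 n → q ∣ 2 * n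

/-- `1 + p + ... + p ^ (ℓ - 1)` is composed of prime factors of `2 m`. -/
def Rep (m ℓ p : ℕ) : Prop := ∀ q : ℕ, q.Prime → q ∣ ∑ i ∈ range ℓ, p ^ i → q ∣ 2 * m

/-- D1: structure of the radical at its largest prime. -/
def StmtD1 : Prop := ∀ (n : ℕ), Closed n → ∃ p m ℓ : ℕ, p.Prime ∧ ℓ.Prime ∧ 0 < m ∧ ¬ p ∣ m ∧
  ∏ q ∈ n.primeFactors, q = p * m ∧ (∀ q : ℕ, q.Prime → q ∣ m → q < p) ∧ Rep m ℓ p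

/-- D2: a large prime `ℓ` gives a Wieferich type congruence modulo a high power of a prime. -/
def StmtD2 : Prop := ∀ (m ℓ p : ℕ), p.Prime → ℓ.Prime → 0 < m →
  (∀ q : ℕ, q.Prime → q ∣ m → q < p) → Rep m ℓ p → 8 * (m.primeFactors.card + 1) < ℓ →
  ∃ q ∈ m.primeFactors, 2 < q ∧ ∃ j : ℕ, p ^ 8 ≤ q ^ j ∧ q ^ j ∣ p ^ (q - 1) - 1

/-- D3: few primes satisfy such a congruence. -/
def StmtD3 : Prop := ∀ (q P : ℕ), q.Prime → 2 < q → 2 ≤ P →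
  {p : ℕ | p.Prime ∧ P ≤ p ∧ p ≤ 2 * P ∧ ∃ j : ℕ, p ^ 8 ≤ q ^ j ∧ q ^ j ∣ p ^ (q - 1) - 1}.ncard ^ 2
    ≤ 2 * q

/-- D4: few primes for a given small `ℓ`. -/
def StmtD4 : Prop := ∀ (m ℓ Z : ℕ), 0 < m → 2 ≤ ℓ → 1 ≤ Z →
  {p : ℕ | p.Prime ∧ p ≤ Z ∧ Rep m ℓ p}.ncard ≤
    (ℓ * (Nat.log 2 Z + 1) + 1) ^ (m.primeFactors.card + 1)

/-- D5: few integers with many prime factors. -/
def StmtD5 : Prop := ∃ X₀ : ℝ, 3 ≤ X₀ ∧ ∀ X : ℝ, X₀ ≤ X →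
  (({R : ℕ | 1 ≤ R ∧ (R : ℝ) ≤ X ∧
    Real.log X ^ ((1 : ℝ) / 3) / (10 * Real.log (Real.log X)) ≤ (R.primeFactors.card : ℝ)}.ncard
      : ℕ) : ℝ) ≤ X * Real.exp (-(Real.log X ^ ((1 : ℝ) / 3) / 90))

/-- D6: few smooth integers. -/
def StmtD6 : Prop := ∃ X₀ : ℝ, 3 ≤ X₀ ∧ ∀ X : ℝ, X₀ ≤ X →
  (({R : ℕ | 1 ≤ R ∧ (R : ℝ) ≤ X ∧ Squarefree R ∧ ∀ p : ℕ, p.Prime → p ∣ R →
    (p : ℝ) ≤ Real.exp (Real.log X ^ ((1 : ℝ) / 3))}.ncard : ℕ) : ℝ) ≤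
      X * Real.exp (-(Real.log X ^ ((1 : ℝ) / 3) / 90))

/-- D7: the main count. -/
def StmtD7 : Prop := ∃ X₀ : ℝ, 3 ≤ X₀ ∧ ∀ X : ℝ, X₀ ≤ X →
  (({R : ℕ | (R : ℝ) ≤ X ∧
    (R.primeFactors.card : ℝ) ≤ Real.log X ^ ((1 : ℝ) / 3) / (10 * Real.log (Real.log X)) ∧
    ∃ p m ℓ : ℕ, p.Prime ∧ ℓ.Prime ∧ 0 < m ∧ ¬ p ∣ m ∧ R = p * m ∧
      (∀ q : ℕ, q.Prime → q ∣ m → q < p) ∧ Rep m ℓ p ∧
      Real.exp (Real.log X ^ ((1 : ℝ) / 3)) ≤ (p : ℝ)}.ncard : ℕ) : ℝ) ≤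
      X * Real.exp (-(Real.log X ^ ((1 : ℝ) / 3) / 90))

/-- D8: the theorem. -/
def StmtD8 : Prop := ∃ C : ℝ, ∀ X : ℝ, 1 ≤ X →
  (({R : ℕ | (R : ℝ) ≤ X ∧ ∃ n : ℕ, Closed n ∧ ∏ p ∈ n.primeFactors, p = R}.ncard : ℕ) : ℝ) ≤
    C * X * Real.exp (-(Real.log X ^ ((1 : ℝ) / 3) / 100))

end

end Pool.Agent.W223.RD
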