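import Mathlib
import Pool.Agent.W223.RD.Stms

set_option autoImplicit false

namespace Pool.Agent.W970.RD

open Finset

theorem prod_eq {a b c d : ℕ} (ha : a.Prime) (hb : b.Prime) (hc : c.Prime) (hd : d.Prime)
    (h : a * b = c * d) : (a = c ∧ b = d) ∨ (a = d ∧ b = c) := by
  have h1 : a ∣ c * d := ⟨b, h.symm⟩
  rcases (Nat.Prime.dvd_mul ha).1 h1 with h2 | h2
  · have h3 : a = c := (Nat.prime_dvd_prime_iff_eq ha hc).1 h2
    subst h3
    exact Or.inl ⟨rfl, Nat.eq_of_mul_eq_mul_left ha.pos h⟩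
  · have h3 : a = d := (Nat.prime_dvd_prime_iff_eq ha hd).1 h2
    subst h3
    refine Or.inr ⟨rfl, ?_⟩
    rw [mul_comm c a] at h
    exact Nat.eq_of_mul_eq_mul_left ha.pos h

theorem core (q : ℕ) (hq : q.Prime) (hq2 : q ≠ 2) (P : ℕ) (hP : 2 ≤ P) (T : Finset ℕ)
    (hT : ∀ p ∈ T, p.Prime ∧ P ≤ p ∧ p ≤ 2 * P ∧ ∃ j, p ^ 8 ≤ q ^ j ∧ q ^ j ∣ p ^ (q - 1) - 1) :
    T.card ^ 2 ≤ 2 * (q - 1) := by
  classical
  have hex : ∃ j, 16 * P ^ 2 ≤ q ^ j := by
    obtain ⟨n, hn⟩ := pow_unbounded_of_one_lt (16 * P ^ 2) hq.one_lt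
    exact ⟨n, hn.le⟩
  let J := Nat.find hex
  have hJ : 16 * P ^ 2 ≤ q ^ J := Nat.find_spec hex
  have hJ1 : 1 ≤ J := by
    by_contra h0
    have h1 : J = 0 := by omega
    rw [h1, pow_zero] at hJ
    nlinarith
  have hdiv : ∀ p ∈ T, q ^ J ∣ p ^ (q - 1) - 1 := by
    intro p hp
    obtain ⟨_, h2, _, j, h4, h5⟩ := hT p hp
    have h6 : 16 * P ^ 2 ≤ q ^ j := by
      have h7 : P ^ 8 ≤ p ^ 8 := Nat.pow_le_pow_left h2 8
      have h8 : 2 ^ 6 ≤ P ^ 6 := Nat.pow_le_pow_left hP 6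
      have h9 : 16 * P ^ 2 ≤ P ^ 8 := by
        have : P ^ 8 = P ^ 6 * P ^ 2 := by ring
        rw [this]
        exact Nat.mul_le_mul_right _ (by omega)
      omega
    exact (pow_dvd_pow q (Nat.find_min' hex h6)).trans h5
  have hq1 : 1 ≤ q - 1 := by have := hq.two_le; omega
  have hone : ∀ p ∈ T, 1 ≤ p ^ (q - 1) := fun p hp => Nat.one_le_pow _ _ (hT p hp).1.pos
  have hcop : ∀ p ∈ T, Nat.Coprime p (q ^ J) := by
    intro p hp
    apply Nat.Coprime.pow_right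
    rw [Nat.coprime_comm]
    rw [Nat.Prime.coprime_iff_not_dvd hq]
    intro h
    have h1 : q ∣ p ^ (q - 1) := dvd_pow h (by omega)
    have h2 : q ∣ p ^ (q - 1) - 1 := (dvd_pow_self q (by omega)).trans (hdiv p hp)
    have h3 : q ∣ 1 := by
      have := (Nat.dvd_sub h1 h2)
      rwa [Nat.sub_sub_self (hone p hp)] at this
    exact hq.one_lt.ne' (Nat.dvd_one.1 h3)
  have hunit : ∀ p ∈ T, ((p : ZMod (q ^ J))) ^ (q - 1) = 1 := by
    intro p hp
    have h1 := (ZMod.natCast_eq_zero_iff (p ^ (q - 1) - 1) (q ^ J)).2 (hdiv p hp)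
    rw [Nat.cast_sub (hone p hp)] at h1
    push_cast at h1
    exact sub_eq_zero.1 h1
  let S : Finset ℕ := (T ×ˢ T).image (fun x => x.1 * x.2)
  have hS1 : (T ×ˢ T).card ≤ 2 * S.card := by
    refine Finset.card_le_mul_card_image _ 2 ?_
    intro a ha
    obtain ⟨⟨c, d⟩, hcd, hcd2⟩ := Finset.mem_image.1 ha
    rw [Finset.mem_product] at hcd
    simp only at hcd2 hcd
    have hsub : (T ×ˢ T).filter (fun x => x.1 * x.2 = a) ⊆ {(c, d), (d, c)} := by
      rintro ⟨x, y⟩ hxy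
      rw [Finset.mem_filter, Finset.mem_product] at hxy
      obtain ⟨⟨hx, hy⟩, hxy⟩ := hxy
      simp only at hx hy hxy
      rcases prod_eq (hT x hx).1 (hT y hy).1 (hT c hcd.1).1 (hT d hcd.2).1
        (hxy.trans hcd2.symm) with ⟨h1, h2⟩ | ⟨h1, h2⟩
      · simp [h1, h2]
      · simp [h1, h2]
    exact (Finset.card_le_card hsub).trans (Finset.card_le_two)
  have : Fact q.Prime := ⟨hq⟩
  have : NeZero (q ^ J) := ⟨pow_ne_zero _ hq.ne_zero⟩
  have hcyc : IsCyclic (ZMod (q ^ J))ˣ := ZMod.isCyclic_units_of_prime_pow q hq hq2 J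
  have hS2 : S.card ≤ (Finset.univ.filter (fun u : (ZMod (q ^ J))ˣ => u ^ (q - 1) = 1)).card := by
    have hScop : ∀ s ∈ S, Nat.Coprime s (q ^ J) ∧ ((s : ZMod (q ^ J))) ^ (q - 1) = 1 ∧
        s < q ^ J := by
      intro s hs
      obtain ⟨⟨c, d⟩, hcd, rfl⟩ := Finset.mem_image.1 hs
      rw [Finset.mem_product] at hcd
      refine ⟨Nat.Coprime.mul_left (hcop c hcd.1) (hcop d hcd.2), ?_, ?_⟩
      · push_cast
        rw [mul_pow, hunit c hcd.1, hunit d hcd.2, one_mul]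
      · have h1 := (hT c hcd.1).2.2.1
        have h2 := (hT d hcd.2).2.2.1
        have h3 : c * d ≤ (2 * P) * (2 * P) := Nat.mul_le_mul h1 h2
        simp only
        nlinarith
    let f : ℕ → (ZMod (q ^ J))ˣ := fun s =>
      if h : Nat.Coprime s (q ^ J) then ZMod.unitOfCoprime s h else 1
    have hf : ∀ s (h : Nat.Coprime s (q ^ J)), f s = ZMod.unitOfCoprime s h := fun s h => dif_pos h
    refine Finset.card_le_card_of_injOn f ?_ ?_
    · intro s hs
      obtain ⟨h1, h2, _⟩ := hScop s hs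
      rw [hf s h1]
      simp only [Finset.coe_filter, Finset.mem_univ, true_and, Set.mem_ofPred_eq]
      ext
      rw [Units.val_pow_eq_pow_val, ZMod.coe_unitOfCoprime, h2, Units.val_one]
    · intro s hs t ht hst
      obtain ⟨h1, _, h3⟩ := hScop s hs
      obtain ⟨h4, _, h6⟩ := hScop t ht
      rw [hf s h1, hf t h4] at hst
      have h7 := congrArg Units.val hst
      rw [ZMod.coe_unitOfCoprime, ZMod.coe_unitOfCoprime] at h7
      have h8 := congrArg ZMod.val h7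
      rwa [ZMod.val_natCast_of_lt h3, ZMod.val_natCast_of_lt h6] at h8
  have hS3 := IsCyclic.card_pow_eq_one_le (α := (ZMod (q ^ J))ˣ) (n := q - 1) (by omega)
  rw [Finset.card_product] at hS1
  have hS4 := hS2.trans hS3
  rw [sq]
  omega

theorem tD3 : Pool.Agent.W223.RD.StmtD3 := by
  intro q P hq hq2 hP
  have hfin : {p : ℕ | p.Prime ∧ P ≤ p ∧ p ≤ 2 * P ∧
      ∃ j : ℕ, p ^ 8 ≤ q ^ j ∧ q ^ j ∣ p ^ (q - 1) - 1}.Finite :=
    (Set.finite_Iic (2 * P)).subset (fun p hp => hp.2.2.1)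
  rw [Set.ncard_eq_toFinset_card _ hfin]
  have h := core q hq (by omega) P hP hfin.toFinset (fun p hp => by simpa using hp)
  omega

end Pool.Agent.W970.RD
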