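import Pool.Agent.W223.RD.Stms

set_option autoImplicit false

namespace Pool.Agent.W977.RD

open Finset

/-- the geometric sum -/
def y (l p : ℕ) : ℕ := ∑ i ∈ range l, p ^ i

theorem y_le (l p : ℕ) (hp : 2 ≤ p) : y l p + 1 ≤ p ^ l := by
  unfold y
  induction l with
  | zero => simp
  | succ l ih =>
    rw [sum_range_succ, pow_succ]
    have h : p ^ l * 2 ≤ p ^ l * p := Nat.mul_le_mul_left _ hp
    omega

theorem y_pos (l p : ℕ) (hl : 2 ≤ l) : 0 < y l p := by
  unfold y
  obtain ⟨k, rfl⟩ : ∃ k, l = k + 1 := ⟨l - 1, by omega⟩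
  rw [sum_range_succ']
  simp

theorem y_strict (l a b : ℕ) (hl : 2 ≤ l) (hab : a < b) : y l a < y l b := by
  unfold y
  apply sum_lt_sum
  · intro i _
    exact Nat.pow_le_pow_left hab.le i
  · exact ⟨1, by simp; omega, by simpa using hab⟩

theorem y_inj (l a b : ℕ) (hl : 2 ≤ l) (h : y l a = y l b) : a = b := by
  rcases lt_trichotomy a b with h1 | h1 | h1
  · exact absurd h (y_strict l a b hl h1).ne
  · exact h1
  · exact absurd h (y_strict l b a hl h1).ne'

theorem fac_le (l Z p q : ℕ) (hl : 2 ≤ l) (hp : 2 ≤ p) (hpZ : p ≤ Z) (hq : q.Prime) :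
    (y l p).factorization q ≤ l * (Nat.log 2 Z + 1) := by
  by_contra hcon
  push Not at hcon
  have h1 : q ^ (y l p).factorization q ≤ y l p :=
    Nat.le_of_dvd (y_pos l p hl) (Nat.ordProj_dvd _ _)
  have h2 : 2 ^ (l * (Nat.log 2 Z + 1)) ≤ q ^ (y l p).factorization q :=
    (Nat.pow_le_pow_left hq.two_le _).trans (Nat.pow_le_pow_right hq.pos hcon.le)
  have h3 : y l p < Z ^ l := by
    have := y_le l p hp
    have h4 : p ^ l ≤ Z ^ l := Nat.pow_le_pow_left hpZ l
    omega
  have h5 : Z ^ l ≤ (2 ^ (Nat.log 2 Z + 1)) ^ l :=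
    Nat.pow_le_pow_left (Nat.lt_pow_succ_log_self (by norm_num) Z).le l
  rw [← pow_mul, mul_comm] at h5
  omega

theorem count (m l Z : ℕ) (hm : m ≠ 0) (hl : 2 ≤ l) (S : Finset ℕ)
    (hS : ∀ p ∈ S, 2 ≤ p ∧ p ≤ Z ∧ ∀ q : ℕ, q.Prime → q ∣ y l p → q ∣ 2 * m) :
    S.card ≤ (l * (Nat.log 2 Z + 1) + 1) ^ ((2 * m).primeFactors.card) := by
  classical
  set B := l * (Nat.log 2 Z + 1) with hB
  let f : ℕ → ((2 * m).primeFactors → Fin (B + 1)) := fun p q =>
    ⟨min B ((y l p).factorization q), by omega⟩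
  have hcard : (Finset.univ : Finset ((2 * m).primeFactors → Fin (B + 1))).card =
      (B + 1) ^ ((2 * m).primeFactors.card) := by
    rw [Finset.card_univ, Fintype.card_fun, Fintype.card_fin, Fintype.card_coe]
  rw [← hcard]
  apply Finset.card_le_card_of_injOn f (fun _ _ => by simp)
  intro a ha b hb hab
  obtain ⟨ha2, haZ, haf⟩ := hS a ha
  obtain ⟨hb2, hbZ, hbf⟩ := hS b hb
  apply y_inj l a b hl
  apply Nat.eq_of_factorization_eq (y_pos l a hl).ne' (y_pos l b hl).ne'
  intro q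
  by_cases hq : q.Prime
  · by_cases hqm : q ∣ 2 * m
    · have hmem : q ∈ (2 * m).primeFactors := by
        rw [Nat.mem_primeFactors]
        exact ⟨hq, hqm, by omega⟩
      have h1 := congrArg Fin.val (congrFun hab ⟨q, hmem⟩)
      simp only [f] at h1
      rw [min_eq_right (fac_le l Z a q hl ha2 haZ hq),
        min_eq_right (fac_le l Z b q hl hb2 hbZ hq)] at h1
      exact h1
    · rw [Nat.factorization_eq_zero_of_not_dvd (fun h => hqm (haf q hq h)),
        Nat.factorization_eq_zero_of_not_dvd (fun h => hqm (hbf q hq h))]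
  · rw [Nat.factorization_eq_zero_of_not_prime _ hq, Nat.factorization_eq_zero_of_not_prime _ hq]

theorem card_pf (m : ℕ) (hm : m ≠ 0) :
    (2 * m).primeFactors.card ≤ m.primeFactors.card + 1 := by
  rw [Nat.primeFactors_mul (by norm_num) hm]
  refine (Finset.card_union_le _ _).trans ?_
  rw [Nat.prime_two.primeFactors]
  simp
  omega

theorem tD4 : Pool.Agent.W223.RD.StmtD4 := by
  intro m l Z hm hl _
  have hfin : {p : ℕ | p.Prime ∧ p ≤ Z ∧ Pool.Agent.W223.RD.Rep m l p}.Finite :=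
    (Set.finite_le_nat Z).subset fun p hp => hp.2.1
  rw [Set.ncard_eq_toFinset_card _ hfin]
  refine (count m l Z hm.ne' hl _ ?_).trans ?_
  · intro p hp
    rw [Set.Finite.mem_toFinset] at hp
    exact ⟨hp.1.two_le, hp.2.1, hp.2.2⟩
  · exact Nat.pow_le_pow_right (Nat.succ_pos _) (card_pf m hm.ne')

end Pool.Agent.W977.RD
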