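import Mathlib
import Pool.Agent.W223.RD.Stms
import Pool.Agent.W576.RA.OM

set_option autoImplicit false

/-!
# RD-D5: few integers with many prime factors
-/

namespace Pool.Agent.W223.RD.N5

open Finset Pool.Agent.W223.RD ArithmeticFunction
open Pool.Agent.W576.RA (low nonneg up)

theorem small5 : ∃ t₀ : ℝ, ∀ t : ℝ, t₀ ≤ t →
    t ^ ((1 : ℝ) / 2) * Real.log (1 + t ^ 3) ≤ t / 180 := by
  have h := (isLittleO_log_rpow_atTop (show (0 : ℝ) < 1 / 2 by norm_num)).bound
    (show (0 : ℝ) < 1 / 720 by norm_num)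
  obtain ⟨L₁, hL₁⟩ := Filter.eventually_atTop.1 h
  refine ⟨max L₁ 2, ?_⟩
  intro t ht
  have ht1 : L₁ ≤ t := le_trans (le_max_left _ _) ht
  have ht2 : 2 ≤ t := le_trans (le_max_right _ _) ht
  have h1 := hL₁ t ht1
  rw [Real.norm_eq_abs, Real.norm_eq_abs, abs_of_nonneg (Real.log_nonneg (by linarith)),
    abs_of_nonneg (by positivity)] at h1
  have h2 : Real.log (1 + t ^ 3) ≤ 4 * Real.log t := by
    have h3 : 1 + t ^ 3 ≤ t ^ 4 := by
      have h4 : (8 : ℝ) ≤ t ^ 3 := by
        have : (2 : ℝ) ^ 3 ≤ t ^ 3 := pow_le_pow_left₀ (by norm_num) ht2 3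
        linarith
      have h5 : t ^ 4 = t * t ^ 3 := by ring
      rw [h5]
      nlinarith
    have h6 := Real.log_le_log (by positivity) h3
    rw [Real.log_pow] at h6
    push_cast at h6
    exact h6
  have h3 : t ^ ((1 : ℝ) / 2) * t ^ ((1 : ℝ) / 2) = t := by
    rw [← Real.rpow_add (by linarith)]
    norm_num
  calc t ^ ((1 : ℝ) / 2) * Real.log (1 + t ^ 3)
      ≤ t ^ ((1 : ℝ) / 2) * (4 * (1 / 720 * t ^ ((1 : ℝ) / 2))) := by
        apply mul_le_mul_of_nonneg_left _ (by positivity)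
        linarith
    _ = 1 / 180 * (t ^ ((1 : ℝ) / 2) * t ^ ((1 : ℝ) / 2)) := by ring
    _ = t / 180 := by rw [h3]; ring

theorem tD5 : StmtD5 := by
  classical
  obtain ⟨t₀, ht₀⟩ := small5
  refine ⟨max 3 (Real.exp ((max t₀ 3) ^ 3)), le_max_left _ _, ?_⟩
  intro X hX
  have hX3 : 3 ≤ X := le_trans (le_max_left _ _) hX
  have hX0 : 0 < X := by linarith
  have hLX : (max t₀ 3) ^ 3 ≤ Real.log X := by
    rw [Real.le_log_iff_exp_le hX0]
    exact le_trans (le_max_right _ _) hX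
  have hm3 : (3 : ℝ) ≤ max t₀ 3 := le_max_right _ _
  have hL0 : 0 ≤ Real.log X := le_trans (by positivity) hLX
  set t := Real.log X ^ ((1 : ℝ) / 3) with htdef
  have ht3 : t ^ 3 = Real.log X := by
    rw [htdef, ← Real.rpow_natCast, ← Real.rpow_mul hL0]
    norm_num
  have ht00 : 0 ≤ t := Real.rpow_nonneg hL0 _
  have htm : max t₀ 3 ≤ t := by
    by_contra hlt
    push Not at hlt
    have : t ^ 3 < (max t₀ 3) ^ 3 := pow_lt_pow_left₀ hlt ht00 (by norm_num)
    rw [ht3] at this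
    linarith
  have ht : 3 ≤ t := hm3.trans htm
  have hs := ht₀ t ((le_max_left _ _).trans htm)
  have hlt : 0 < Real.log t := Real.log_pos (by linarith)
  have hll : Real.log (Real.log X) = 3 * Real.log t := by
    rw [← ht3, Real.log_pow]
    norm_num
  rw [hll]
  obtain ⟨A, hA⟩ : ∃ A, A = ⌊t ^ ((1 : ℝ) / 2)⌋₊ := ⟨_, rfl⟩
  have hA1 : (A : ℝ) ≤ t ^ ((1 : ℝ) / 2) := by
    rw [hA]
    exact Nat.floor_le (by positivity)
  have hA2 : t ^ ((1 : ℝ) / 2) < (A : ℝ) + 1 := by
    rw [hA]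
    exact Nat.lt_floor_add_one _
  set N := ⌊X⌋₊ with hN
  have hset : {R : ℕ | 1 ≤ R ∧ (R : ℝ) ≤ X ∧
      t / (10 * (3 * Real.log t)) ≤ (R.primeFactors.card : ℝ)} =
      (((Ioc 0 N).filter (fun R => t / (10 * (3 * Real.log t)) ≤ (R.primeFactors.card : ℝ)) :
        Finset ℕ) : Set ℕ) := by
    ext R
    rw [Finset.mem_coe, Finset.mem_filter, Finset.mem_Ioc, hN, Nat.le_floor_iff hX0.le]
    constructor
    · rintro ⟨a, b, c⟩
      exact ⟨⟨a, b⟩, c⟩
    · rintro ⟨⟨a, b⟩, c⟩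
      exact ⟨a, b, c⟩
  rw [hset, Set.ncard_coe_finset]
  set T := (Ioc 0 N).filter (fun R => t / (10 * (3 * Real.log t)) ≤ (R.primeFactors.card : ℝ))
    with hT
  have hz : ∀ R ∈ T, Real.exp (t / 60) ≤
      (((zeta : ArithmeticFunction ℕ) : ArithmeticFunction ℝ) ^ (A + 1)) R := by
    intro R hR
    rw [hT, Finset.mem_filter, Finset.mem_Ioc] at hR
    refine le_trans ?_ (low A R (by omega))
    push_cast
    have h1 : (t ^ ((1 : ℝ) / 2)) ^ R.primeFactors.card ≤
        ((A : ℝ) + 1) ^ R.primeFactors.card := pow_le_pow_left₀ (by positivity) hA2.le _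
    refine le_trans ?_ h1
    rw [← Real.rpow_natCast, ← Real.rpow_mul (by linarith),
      Real.rpow_def_of_pos (by linarith), Real.exp_le_exp]
    have h2 := hR.2
    rw [div_le_iff₀ (by positivity)] at h2
    nlinarith [h2]
  have h1 : (T.card : ℝ) * Real.exp (t / 60) ≤ (N : ℝ) * (1 + Real.log N) ^ A := by
    refine le_trans ?_ (up A N)
    calc (T.card : ℝ) * Real.exp (t / 60) = ∑ _R ∈ T, Real.exp (t / 60) := by
          rw [Finset.sum_const, nsmul_eq_mul]
      _ ≤ ∑ R ∈ T, (((zeta : ArithmeticFunction ℕ) : ArithmeticFunction ℝ) ^ (A + 1)) R :=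
          Finset.sum_le_sum hz
      _ ≤ _ := Finset.sum_le_sum_of_subset_of_nonneg (Finset.filter_subset _ _)
          (fun R _ _ => nonneg A R)
  have hNX : (N : ℝ) ≤ X := Nat.floor_le hX0.le
  have hN1 : 1 ≤ N := by
    rw [hN, Nat.le_floor_iff hX0.le]
    push_cast
    linarith
  have e2 : 0 ≤ Real.log N := Real.log_natCast_nonneg N
  have h2 : (1 + Real.log N) ^ A ≤ Real.exp (t / 180) := by
    have e1 : Real.log N ≤ t ^ 3 := by
      rw [ht3]
      exact Real.log_le_log (by exact_mod_cast hN1) hNX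
    calc (1 + Real.log N) ^ A ≤ (1 + t ^ 3) ^ A := pow_le_pow_left₀ (by linarith) (by linarith) _
      _ = Real.exp (Real.log (1 + t ^ 3) * A) := by
          rw [← Real.rpow_natCast, Real.rpow_def_of_pos (by positivity)]
      _ ≤ Real.exp (t / 180) := by
          rw [Real.exp_le_exp]
          refine le_trans ?_ hs
          rw [mul_comm]
          apply mul_le_mul_of_nonneg_right hA1 (Real.log_nonneg _)
          have : 0 ≤ t ^ 3 := by positivity
          linarith
  have h3 : (T.card : ℝ) * Real.exp (t / 60) ≤ X * Real.exp (t / 180) := by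
    refine h1.trans ?_
    exact mul_le_mul hNX h2 (by positivity) hX0.le
  have h4 : X * Real.exp (t / 180) = (X * Real.exp (-(t / 90))) * Real.exp (t / 60) := by
    rw [mul_assoc, ← Real.exp_add]
    congr 2
    ring
  rw [h4] at h3
  exact le_of_mul_le_mul_right h3 (Real.exp_pos _)

end Pool.Agent.W223.RD.N5
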