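import Mathlib
import Pool.Agent.W223.RD.Stms

set_option autoImplicit false

/-!
# RD-D6: few smooth squarefree integers (Rankin)
-/

namespace Pool.Agent.W223.RD.N6

open Finset Pool.Agent.W223.RD

theorem prod_bound (t : ℝ) (ht : 5 ≤ t) (N : ℕ) (hN : (N : ℝ) ≤ Real.exp t) :
    ∏ n ∈ Icc 1 N, (1 + (n : ℝ) ^ (-(1 - 1 / t))) ≤ Real.exp (3 * (1 + t)) := by
  have ht0 : 0 < t := by linarith
  have h1 : ∀ n ∈ Icc 1 N, (1 + (n : ℝ) ^ (-(1 - 1 / t))) ≤ Real.exp (3 * (n : ℝ)⁻¹) := by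
    intro n hn
    rw [mem_Icc] at hn
    have hn0 : (0 : ℝ) < n := by exact_mod_cast hn.1
    have h2 : (n : ℝ) ^ (-(1 - 1 / t)) ≤ 3 * (n : ℝ)⁻¹ := by
      have e1 : -(1 - 1 / t) = 1 / t + (-1) := by ring
      rw [e1, Real.rpow_add hn0, Real.rpow_neg_one]
      apply mul_le_mul_of_nonneg_right _ (by positivity)
      have h3 : (n : ℝ) ≤ Real.exp t := le_trans (by exact_mod_cast hn.2) hN
      calc (n : ℝ) ^ (1 / t) ≤ (Real.exp t) ^ (1 / t) :=
            Real.rpow_le_rpow hn0.le h3 (by positivity)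
        _ = Real.exp 1 := by
            rw [← Real.exp_mul]
            congr 1
            field_simp
        _ ≤ 3 := by
            have := Real.exp_one_lt_d9
            linarith
    have h4 := Real.add_one_le_exp (3 * (n : ℝ)⁻¹)
    linarith
  calc ∏ n ∈ Icc 1 N, (1 + (n : ℝ) ^ (-(1 - 1 / t))) ≤ ∏ n ∈ Icc 1 N, Real.exp (3 * (n : ℝ)⁻¹) :=
        Finset.prod_le_prod (fun n _ => by positivity) h1
    _ = Real.exp (3 * ∑ n ∈ Icc 1 N, (n : ℝ)⁻¹) := by
        rw [← Real.exp_sum, Finset.mul_sum]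
    _ ≤ _ := by
        apply Real.exp_le_exp.2
        apply mul_le_mul_of_nonneg_left _ (by norm_num)
        have h5 := harmonic_le_one_add_log N
        rw [harmonic_eq_sum_Icc] at h5
        push_cast at h5
        refine h5.trans ?_
        rcases Nat.eq_zero_or_pos N with h0 | h0
        · subst h0
          simp
          linarith
        · have h6 : Real.log N ≤ t := by
            rw [Real.log_le_iff_le_exp (by exact_mod_cast h0)]
            exact hN
          linarith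

theorem tD6 : StmtD6 := by
  classical
  refine ⟨Real.exp 125, ?_, ?_⟩
  · have := Real.add_one_le_exp (125 : ℝ)
    linarith
  intro X hX
  have hX0 : 0 < X := lt_of_lt_of_le (Real.exp_pos _) hX
  have hL : 125 ≤ Real.log X := (Real.le_log_iff_exp_le hX0).2 hX
  have hL0 : 0 ≤ Real.log X := by linarith
  set t := Real.log X ^ ((1 : ℝ) / 3) with htdef
  have ht3 : t ^ 3 = Real.log X := by
    rw [htdef, ← Real.rpow_natCast, ← Real.rpow_mul hL0]
    norm_num
  have ht0 : 0 ≤ t := Real.rpow_nonneg hL0 _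
  have ht : 5 ≤ t := by
    by_contra hlt
    push Not at hlt
    have : t ^ 3 < 5 ^ 3 := pow_lt_pow_left₀ hlt ht0 (by norm_num)
    rw [ht3] at this
    norm_num at this
    linarith
  set N := ⌊Real.exp t⌋₊ with hN
  have hNe : (N : ℝ) ≤ Real.exp t := Nat.floor_le (Real.exp_pos _).le
  set β : ℝ := 1 - 1 / t with hβ
  have hβ0 : 0 ≤ β := by
    rw [hβ]
    have : 1 / t ≤ 1 := by
      rw [div_le_one (by linarith)]
      linarith
    linarith
  let F : Finset ℕ := (Icc 1 ⌊X⌋₊).filter (fun R => Squarefree R ∧ ∀ p : ℕ, p.Prime → p ∣ R →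
    (p : ℝ) ≤ Real.exp t)
  have hset : {R : ℕ | 1 ≤ R ∧ (R : ℝ) ≤ X ∧ Squarefree R ∧ ∀ p : ℕ, p.Prime → p ∣ R →
    (p : ℝ) ≤ Real.exp t} = (F : Set ℕ) := by
    ext R
    rw [Finset.mem_coe, Finset.mem_filter, mem_Icc]
    constructor
    · rintro ⟨h1, h2, h3, h4⟩
      exact ⟨⟨h1, Nat.le_floor h2⟩, h3, h4⟩
    · rintro ⟨⟨h1, h2⟩, h3, h4⟩
      exact ⟨h1, (Nat.cast_le.2 h2).trans (Nat.floor_le hX0.le), h3, h4⟩
  rw [hset, Set.ncard_coe_finset]
  -- Rankin
  have h1 : (F.card : ℝ) ≤ ∑ R ∈ F, X ^ β * ∏ p ∈ R.primeFactors, (p : ℝ) ^ (-β) := by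
    rw [Finset.card_eq_sum_ones, Nat.cast_sum]
    apply Finset.sum_le_sum
    intro R hR
    obtain ⟨hR1, hR2, hR3⟩ := Finset.mem_filter.1 hR
    rw [mem_Icc] at hR1
    have hR0 : (0 : ℝ) < R := by exact_mod_cast hR1.1
    have hRX : (R : ℝ) ≤ X := (Nat.cast_le.2 hR1.2).trans (Nat.floor_le hX0.le)
    have e1 : ∏ p ∈ R.primeFactors, (p : ℝ) ^ (-β) = (R : ℝ) ^ (-β) := by
      rw [Real.finsetProd_rpow _ _ (fun i _ => Nat.cast_nonneg i)]
      congr 1
      rw [← Nat.cast_prod, Nat.prod_primeFactors_of_squarefree hR2]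
    rw [e1, Real.rpow_neg hR0.le, ← div_eq_mul_inv, Nat.cast_one, le_div_iff₀ (by positivity),
      one_mul]
    exact Real.rpow_le_rpow hR0.le hRX hβ0
  have h2 : ∑ R ∈ F, ∏ p ∈ R.primeFactors, (p : ℝ) ^ (-β) ≤
      ∏ n ∈ Icc 1 N, (1 + (n : ℝ) ^ (-β)) := by
    rw [Finset.prod_one_add]
    have hinj : Set.InjOn Nat.primeFactors (F : Set ℕ) := by
      intro R hR R' hR' h
      have h3 := (Finset.mem_filter.1 hR).2.1
      have h4 := (Finset.mem_filter.1 hR').2.1
      rw [← Nat.prod_primeFactors_of_squarefree h3, ← Nat.prod_primeFactors_of_squarefree h4, h]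
    rw [← Finset.sum_image (f := fun T : Finset ℕ => ∏ p ∈ T, (p : ℝ) ^ (-β)) hinj]
    apply Finset.sum_le_sum_of_subset_of_nonneg
    · intro T hT
      obtain ⟨R, hR, rfl⟩ := Finset.mem_image.1 hT
      rw [Finset.mem_powerset]
      intro p hp
      rw [mem_Icc]
      have hp1 := Nat.prime_of_mem_primeFactors hp
      exact ⟨hp1.one_lt.le, Nat.le_floor
        ((Finset.mem_filter.1 hR).2.2 p hp1 (Nat.dvd_of_mem_primeFactors hp))⟩
    · intro T _ _
      exact Finset.prod_nonneg fun p _ => by positivity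
  have h3 := prod_bound t ht N hNe
  rw [← Finset.mul_sum] at h1
  have h4 : X ^ β = X * Real.exp (-(t ^ 2)) := by
    rw [hβ, Real.rpow_sub hX0, Real.rpow_one, div_eq_mul_inv]
    congr 1
    rw [Real.rpow_def_of_pos hX0, ← Real.exp_neg, ← ht3]
    congr 1
    field_simp
  calc (F.card : ℝ) ≤ X ^ β * ∑ R ∈ F, ∏ p ∈ R.primeFactors, (p : ℝ) ^ (-β) := h1
    _ ≤ X ^ β * Real.exp (3 * (1 + t)) :=
        mul_le_mul_of_nonneg_left (h2.trans h3) (by positivity)
    _ = X * Real.exp (-(t ^ 2) + 3 * (1 + t)) := by rw [h4, Real.exp_add]; ring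
    _ ≤ X * Real.exp (-(t / 90)) := by
        apply mul_le_mul_of_nonneg_left _ hX0.le
        apply Real.exp_le_exp.2
        nlinarith

end Pool.Agent.W223.RD.N6
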