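import Mathlib

set_option autoImplicit false

namespace Pool.Agent.W491.RD

open Real

theorem core (t P : ℝ) (w N l2 : ℕ) (ht : (10:ℝ)^12 ≤ t)
    (hw : (w:ℝ) ≤ t / (10 * (3 * log t))) (hl : (l2:ℝ) ≤ 2 * t^3)
    (hN : (N:ℝ) ≤ 2 * t^3 + 2) (hP : exp t / 2 ≤ P) :
    (N:ℝ) * (1 / P * ((w:ℝ) * (2 * sqrt P)) +
      1 / P * ((8*((w:ℝ)+1)+1) * (8*((w:ℝ)+1)*((l2:ℝ)+1)+1)^(w+1))) ≤ exp (-(t/90)) / 2 := by
  have ht1 : (1000:ℝ) ≤ t := le_trans (by norm_num) ht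
  have ht0 : 0 < t := by linarith
  have hlog : 1 ≤ log t := by
    rw [Real.le_log_iff_exp_le ht0]
    have := Real.exp_one_lt_d9
    linarith
  have hden : 0 < 10 * (3 * log t) := by linarith
  have hw1 : (w:ℝ) * (10 * (3 * log t)) ≤ t := (le_div_iff₀ hden).1 hw
  have hwn : (0:ℝ) ≤ w := Nat.cast_nonneg w
  have hw30 : (w:ℝ) * 30 ≤ t := by
    have : (w:ℝ) * 30 ≤ (w:ℝ) * (10 * (3 * log t)) := by
      apply mul_le_mul_of_nonneg_left _ hwn
      linarith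
    linarith
  have hwt : (w:ℝ) + 1 ≤ t := by linarith
  have hwl : 5 * ((w:ℝ) + 1) * log t ≤ t/6 + 5 * log t := by nlinarith
  have hl0 : (0:ℝ) ≤ l2 := Nat.cast_nonneg l2
  have hN0 : (0:ℝ) ≤ N := Nat.cast_nonneg N
  have h3 : (1:ℝ) ≤ t^3 := one_le_pow₀ (by linarith)
  have h4 : (1:ℝ) ≤ t^4 := one_le_pow₀ (by linarith)
  -- base
  have hbase : 8*((w:ℝ)+1)*((l2:ℝ)+1)+1 ≤ t^5 := by
    have h1 : ((w:ℝ)+1)*((l2:ℝ)+1) ≤ t * (2*t^3+1) := by
      apply mul_le_mul hwt (by linarith) (by linarith) (by linarith)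
    have h2 : t ≤ t^4 := by nlinarith
    have h5 : 1000 * t^4 ≤ t^5 := by
      have : t^5 = t * t^4 := by ring
      rw [this]
      apply mul_le_mul_of_nonneg_right ht1 (by linarith)
    have h6 : t * (2*t^3+1) = 2*t^4 + t := by ring
    nlinarith
  have hb0 : 0 ≤ 8*((w:ℝ)+1)*((l2:ℝ)+1)+1 := by positivity
  have hpow : (8*((w:ℝ)+1)*((l2:ℝ)+1)+1)^(w+1) ≤ exp (t/6) * t^5 := by
    calc (8*((w:ℝ)+1)*((l2:ℝ)+1)+1)^(w+1) ≤ (t^5)^(w+1) := pow_le_pow_left₀ hb0 hbase _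
      _ = exp (5 * ((w:ℝ)+1) * log t) := by
          have : t = exp (log t) := (Real.exp_log ht0).symm
          conv_lhs => rw [this]
          rw [← Real.exp_nat_mul, ← Real.exp_nat_mul]
          congr 1
          push_cast
          ring
      _ ≤ exp (t/6 + 5 * log t) := Real.exp_le_exp.2 hwl
      _ = exp (t/6) * t^5 := by
          rw [Real.exp_add]
          congr 1
          have : t^5 = (exp (log t))^5 := by rw [Real.exp_log ht0]
          rw [this, ← Real.exp_nat_mul]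
          norm_num
  have hP0 : 0 < P := lt_of_lt_of_le (by positivity) hP
  have hsq : exp (t/2) / 2 ≤ sqrt P := by
    apply Real.le_sqrt_of_sq_le
    have : (exp (t/2) / 2)^2 = exp t / 4 := by
      rw [div_pow, ← Real.exp_nat_mul]
      norm_num
      congr 1
      ring
    rw [this]
    have := Real.exp_pos t
    linarith
  have hsP : 0 < sqrt P := Real.sqrt_pos.2 hP0
  set E := exp (-(t/2)) with hE
  have hE0 : 0 < E := Real.exp_pos _
  have hEm : E * exp (t/2) = 1 := by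
    rw [hE, ← Real.exp_add]; simp
  have hA : 1 / P * ((w:ℝ) * (2 * sqrt P)) ≤ 4 * t * E := by
    have h1 : 1 / P * ((w:ℝ) * (2 * sqrt P)) = 2 * w / sqrt P := by
      have : P = sqrt P * sqrt P := (Real.mul_self_sqrt hP0.le).symm
      field_simp
      rw [sq_sqrt hP0.le]
      ring
    rw [h1, div_le_iff₀ hsP]
    have h2 : E * (exp (t/2) / 2) ≤ E * sqrt P := mul_le_mul_of_nonneg_left hsq hE0.le
    have h3 : (1:ℝ)/2 ≤ E * sqrt P := by nlinarith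
    have h5 : (2:ℝ) * w ≤ 2 * t := by linarith
    nlinarith
  have hinv : 1 / P ≤ 2 * exp (-t) := by
    rw [div_le_iff₀ hP0]
    have h1 : exp (-t) * (exp t / 2) ≤ exp (-t) * P :=
      mul_le_mul_of_nonneg_left hP (Real.exp_pos _).le
    have h2 : exp (-t) * exp t = 1 := by rw [← Real.exp_add]; simp
    nlinarith
  have hB : 1 / P * ((8*((w:ℝ)+1)+1) * (8*((w:ℝ)+1)*((l2:ℝ)+1)+1)^(w+1)) ≤ 18 * t^6 * E := by
    have h1 : (8*((w:ℝ)+1)+1) ≤ 9 * t := by linarith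
    calc 1 / P * ((8*((w:ℝ)+1)+1) * (8*((w:ℝ)+1)*((l2:ℝ)+1)+1)^(w+1))
        ≤ (2 * exp (-t)) * ((9 * t) * (exp (t/6) * t^5)) := by
          apply mul_le_mul hinv _ (by positivity) (by positivity)
          apply mul_le_mul h1 hpow (by positivity) (by positivity)
      _ = 18 * t^6 * exp (-t + t/6) := by rw [Real.exp_add]; ring
      _ ≤ 18 * t^6 * E := by
          apply mul_le_mul_of_nonneg_left _ (by positivity)
          apply Real.exp_le_exp.2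
          linarith
  have hN3 : (N:ℝ) ≤ 3 * t^3 := by
    have : 1000 * t^2 ≤ t^3 := by nlinarith [sq_nonneg t]
    have : (1:ℝ) ≤ t^2 := one_le_pow₀ (by linarith)
    linarith
  have hsum : 1 / P * ((w:ℝ) * (2 * sqrt P)) +
      1 / P * ((8*((w:ℝ)+1)+1) * (8*((w:ℝ)+1)*((l2:ℝ)+1)+1)^(w+1)) ≤ 22 * t^6 * E := by
    have h1 : t ≤ t^6 := by
      calc t = t^1 := by ring
        _ ≤ t^6 := pow_le_pow_right₀ (by linarith) (by norm_num)
    have : 4 * t * E ≤ 4 * t^6 * E := by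
      apply mul_le_mul_of_nonneg_right _ hE0.le
      linarith
    linarith
  have hs0 : 0 ≤ 1 / P * ((w:ℝ) * (2 * sqrt P)) +
      1 / P * ((8*((w:ℝ)+1)+1) * (8*((w:ℝ)+1)*((l2:ℝ)+1)+1)^(w+1)) := by positivity
  have hfin : (N:ℝ) * (1 / P * ((w:ℝ) * (2 * sqrt P)) +
      1 / P * ((8*((w:ℝ)+1)+1) * (8*((w:ℝ)+1)*((l2:ℝ)+1)+1)^(w+1))) ≤ 66 * t^9 * E := by
    calc _ ≤ (3 * t^3) * (22 * t^6 * E) := mul_le_mul hN3 hsum hs0 (by positivity)
      _ = 66 * t^9 * E := by ring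
  refine hfin.trans ?_
  -- 66 t^9 E ≤ exp(-t/90)/2
  have hx : ((44/90)*t)^10 / (Nat.factorial 10 : ℝ) ≤ exp ((44/90)*t) :=
    Real.pow_div_factorial_le_exp _ (by positivity) 10
  have hfac : (Nat.factorial 10 : ℝ) = 3628800 := by norm_num [Nat.factorial]
  have h10 : (10:ℝ)^12 * t^9 ≤ t^10 := by
    have : t^10 = t * t^9 := by ring
    rw [this]
    exact mul_le_mul_of_nonneg_right ht (by positivity)
  have hkey : 132 * t^9 ≤ exp ((44/90)*t) := by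
    refine le_trans ?_ hx
    rw [hfac, mul_pow, le_div_iff₀ (by norm_num)]
    have h9 : (0:ℝ) ≤ t^9 := by positivity
    have : (132 * 3628800 : ℝ) ≤ (44/90)^10 * 10^12 := by norm_num
    nlinarith
  have hEE : exp (-(t/90)) = exp ((44/90)*t) * E := by
    rw [hE, ← Real.exp_add]
    congr 1
    ring
  rw [hEE]
  have := mul_le_mul_of_nonneg_right hkey hE0.le
  linarith

theorem ana : ∃ X0 : ℝ, ∀ X : ℝ, X0 ≤ X → ∀ w N l2 : ℕ,
    (w:ℝ) ≤ (log X)^(1/3:ℝ) / (10 * log (log X)) → (l2:ℝ) ≤ 2 * log X →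
    (N:ℝ) ≤ 2 * log X + 2 → ∀ P : ℝ, exp ((log X)^(1/3:ℝ)) / 2 ≤ P →
    (N:ℝ) * (X / P * ((w:ℝ) * (2 * sqrt P)) +
      X / P * ((8*((w:ℝ)+1)+1) * (8*((w:ℝ)+1)*((l2:ℝ)+1)+1)^(w+1)))
      ≤ X * exp (-(log X)^(1/3:ℝ) / 90) / 2 := by
  refine ⟨exp (((10:ℝ)^12)^3), ?_⟩
  intro X hX w N l2 hw hl hN P hP
  have hX0 : 0 < X := lt_of_lt_of_le (Real.exp_pos _) hX
  have hL : ((10:ℝ)^12)^3 ≤ log X := (Real.le_log_iff_exp_le hX0).2 hX
  have hL0 : 0 < log X := lt_of_lt_of_le (by positivity) hL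
  set t := (log X)^(1/3:ℝ) with htdef
  have ht3 : t^3 = log X := by
    rw [htdef, ← Real.rpow_natCast, ← Real.rpow_mul hL0.le]
    norm_num
  have ht0 : 0 < t := Real.rpow_pos_of_pos hL0 _
  have ht : (10:ℝ)^12 ≤ t := by
    by_contra hlt
    push Not at hlt
    have : t^3 < ((10:ℝ)^12)^3 := pow_lt_pow_left₀ hlt ht0.le (by norm_num)
    rw [ht3] at this
    linarith
  have hll : log (log X) = 3 * log t := by
    rw [← ht3, Real.log_pow]
    norm_num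
  have h := core t P w N l2 ht (by rw [← hll]; exact hw) (by rw [ht3]; exact hl)
    (by rw [ht3]; exact hN) hP
  have h2 := mul_le_mul_of_nonneg_left h hX0.le
  have e1 : -t / 90 = -(t/90) := by ring
  rw [e1]
  calc _ = X * ((N:ℝ) * (1 / P * ((w:ℝ) * (2 * sqrt P)) +
      1 / P * ((8*((w:ℝ)+1)+1) * (8*((w:ℝ)+1)*((l2:ℝ)+1)+1)^(w+1)))) := by ring
    _ ≤ X * (exp (-(t/90)) / 2) := h2
    _ = _ := by ring

end Pool.Agent.W491.RD
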