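import Pool.Agent.W223.RD.C7b
import Pool.Agent.W223.RD.C7c

namespace Pool.Agent.W223.RD

theorem tD7 (hD2 : StmtD2) (hD3 : StmtD3) (hD4 : StmtD4) : StmtD7 := by
  refine Pool.Agent.W577.RD.D7.tD7' hD2 hD3 hD4 ?_
  obtain ⟨X0, h⟩ := Pool.Agent.W491.RD.ana
  refine ⟨max X0 0, fun X hX w N l2 hw hl hN P hP => ?_⟩
  have hX0 : X0 ≤ X := (le_max_left _ _).trans hX
  have hXn : 0 ≤ X := (le_max_right _ _).trans hX
  refine (h X hX0 w N l2 hw hl hN P hP).trans ?_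
  have e : -(Real.log X ^ ((1 : ℝ) / 3) / 90) = -(Real.log X) ^ (1 / 3 : ℝ) / 90 := by ring
  rw [e]
  have := mul_nonneg hXn (Real.exp_pos (-(Real.log X) ^ (1 / 3 : ℝ) / 90)).le
  linarith

end Pool.Agent.W223.RD
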