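import Pool.Agent.W223.RD.Stms

/-! D8: assembly of the theorem on the radicals of odd perfect numbers (project RD). -/

set_option autoImplicit false

namespace Pool.Agent.W252.RD

open Pool.Agent.W223.RD

theorem fin_le (X : ℝ) : {R : ℕ | (R : ℝ) ≤ X}.Finite := by
  apply Set.Finite.subset (Set.finite_Iic ⌊X⌋₊)
  intro R hR
  exact Nat.le_floor hR

theorem sqf (n : ℕ) : Squarefree (∏ q ∈ n.primeFactors, q) := by
  apply Finset.squarefree_prod_of_pairwise_isCoprime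
  · intro a ha b hb hab
    have ha' := Nat.prime_of_mem_primeFactors ha
    have hb' := Nat.prime_of_mem_primeFactors hb
    exact Nat.coprime_iff_isRelPrime.mp ((Nat.coprime_primes ha' hb').mpr hab)
  · intro a ha
    exact (Nat.prime_of_mem_primeFactors ha).squarefree

theorem tD8 (hD1 : StmtD1) (hD5 : StmtD5) (hD6 : StmtD6) (hD7 : StmtD7) : StmtD8 := by
  obtain ⟨X5, h53, h5⟩ := hD5
  obtain ⟨X6, h63, h6⟩ := hD6
  obtain ⟨X7, h73, h7⟩ := hD7
  set X1 : ℝ := max X5 (max X6 X7) with hX1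
  have hX13 : 3 ≤ X1 := h53.trans (le_max_left _ _)
  refine ⟨max 3 (2 * Real.exp (Real.log X1 ^ ((1 : ℝ) / 3) / 100)), ?_⟩
  intro X hX
  have hL0 : 0 ≤ Real.log X := Real.log_nonneg hX
  set T : ℝ := Real.log X ^ ((1 : ℝ) / 3) with hT
  have hT0 : 0 ≤ T := Real.rpow_nonneg hL0 _
  by_cases hc : X ≤ X1
  · -- small `X`
    have h1 : {R : ℕ | (R : ℝ) ≤ X ∧ ∃ n : ℕ, Closed n ∧ ∏ p ∈ n.primeFactors, p = R}.ncard ≤
        ⌊X⌋₊ + 1 := by
      have h2 : {R : ℕ | (R : ℝ) ≤ X ∧ ∃ n : ℕ, Closed n ∧ ∏ p ∈ n.primeFactors, p = R} ⊆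
          ((Finset.range (⌊X⌋₊ + 1) : Finset ℕ) : Set ℕ) := by
        intro R hR
        rw [Finset.coe_range, Set.mem_Iio]
        have := Nat.le_floor hR.1
        omega
      have h3 := Set.ncard_le_ncard h2 (Finset.finite_toSet _)
      rw [Set.ncard_coe_finset, Finset.card_range] at h3
      exact h3
    have h1R : (({R : ℕ | (R : ℝ) ≤ X ∧ ∃ n : ℕ, Closed n ∧ ∏ p ∈ n.primeFactors, p = R}.ncard
        : ℕ) : ℝ) ≤ 2 * X := by
      have h2 : (({R : ℕ | (R : ℝ) ≤ X ∧ ∃ n : ℕ, Closed n ∧ ∏ p ∈ n.primeFactors, p = R}.ncard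
        : ℕ) : ℝ) ≤ (⌊X⌋₊ : ℝ) + 1 := by exact_mod_cast h1
      have h3 := Nat.floor_le (show 0 ≤ X by linarith)
      linarith
    have hTT : T ≤ Real.log X1 ^ ((1 : ℝ) / 3) :=
      Real.rpow_le_rpow hL0 (Real.log_le_log (by linarith) hc) (by norm_num)
    have h4 : 2 * X ≤ 2 * Real.exp (Real.log X1 ^ ((1 : ℝ) / 3) / 100) * X *
        Real.exp (-(T / 100)) := by
      have h5' : 1 ≤ Real.exp (Real.log X1 ^ ((1 : ℝ) / 3) / 100) * Real.exp (-(T / 100)) := by
        rw [← Real.exp_add]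
        apply Real.one_le_exp
        linarith
      have h6' : 2 * X * 1 ≤ 2 * X *
          (Real.exp (Real.log X1 ^ ((1 : ℝ) / 3) / 100) * Real.exp (-(T / 100))) :=
        mul_le_mul_of_nonneg_left h5' (by linarith)
      linarith
    refine h1R.trans (h4.trans ?_)
    apply mul_le_mul_of_nonneg_right _ (Real.exp_pos _).le
    exact mul_le_mul_of_nonneg_right (le_max_right _ _) (by linarith)
  · push Not at hc
    have hX5 : X5 ≤ X := (le_max_left _ _).trans hc.le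
    have hX6 : X6 ≤ X := ((le_max_left _ _).trans (le_max_right _ _)).trans hc.le
    have hX7 : X7 ≤ X := ((le_max_right _ _).trans (le_max_right _ _)).trans hc.le
    have b5 := h5 X hX5
    have b6 := h6 X hX6
    have b7 := h7 X hX7
    set A5 : Set ℕ := {R : ℕ | 1 ≤ R ∧ (R : ℝ) ≤ X ∧
      Real.log X ^ ((1 : ℝ) / 3) / (10 * Real.log (Real.log X)) ≤ (R.primeFactors.card : ℝ)} with hA5
    set A6 : Set ℕ := {R : ℕ | 1 ≤ R ∧ (R : ℝ) ≤ X ∧ Squarefree R ∧ ∀ p : ℕ, p.Prime → p ∣ R →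
      (p : ℝ) ≤ Real.exp (Real.log X ^ ((1 : ℝ) / 3))} with hA6
    set A7 : Set ℕ := {R : ℕ | (R : ℝ) ≤ X ∧
      (R.primeFactors.card : ℝ) ≤ Real.log X ^ ((1 : ℝ) / 3) / (10 * Real.log (Real.log X)) ∧
      ∃ p m ℓ : ℕ, p.Prime ∧ ℓ.Prime ∧ 0 < m ∧ ¬ p ∣ m ∧ R = p * m ∧
        (∀ q : ℕ, q.Prime → q ∣ m → q < p) ∧ Rep m ℓ p ∧
        Real.exp (Real.log X ^ ((1 : ℝ) / 3)) ≤ (p : ℝ)} with hA7
    have f5 : A5.Finite := (fin_le X).subset fun R hR => hR.2.1
    have f6 : A6.Finite := (fin_le X).subset fun R hR => hR.2.1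
    have f7 : A7.Finite := (fin_le X).subset fun R hR => hR.1
    have hsub : {R : ℕ | (R : ℝ) ≤ X ∧ ∃ n : ℕ, Closed n ∧ ∏ p ∈ n.primeFactors, p = R} ⊆
        A5 ∪ (A6 ∪ A7) := by
      rintro R ⟨hR, n, hn, rfl⟩
      obtain ⟨p, m, ℓ, hp, hℓ, hm, hpm, hprod, hmax, hrep⟩ := hD1 n hn
      have h1 : 1 ≤ ∏ q ∈ n.primeFactors, q :=
        Finset.prod_pos fun q hq => (Nat.prime_of_mem_primeFactors hq).pos
      by_cases hK : Real.log X ^ ((1 : ℝ) / 3) / (10 * Real.log (Real.log X)) ≤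
          ((∏ q ∈ n.primeFactors, q).primeFactors.card : ℝ)
      · left
        exact ⟨h1, hR, hK⟩
      · right
        push Not at hK
        by_cases hpe : Real.exp (Real.log X ^ ((1 : ℝ) / 3)) ≤ (p : ℝ)
        · right
          exact ⟨hR, hK.le, p, m, ℓ, hp, hℓ, hm, hpm, hprod, hmax, hrep, hpe⟩
        · left
          push Not at hpe
          refine ⟨h1, hR, sqf n, ?_⟩
          intro q hq hqd
          rw [hprod] at hqd
          have hqp : q ≤ p := by
            rcases (Nat.Prime.dvd_mul hq).mp hqd with h | h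
            · exact Nat.le_of_dvd hp.pos h
            · exact (hmax q hq h).le
          have : (q : ℝ) ≤ p := by exact_mod_cast hqp
          linarith
    have hle : {R : ℕ | (R : ℝ) ≤ X ∧ ∃ n : ℕ, Closed n ∧ ∏ p ∈ n.primeFactors, p = R}.ncard ≤
        A5.ncard + (A6.ncard + A7.ncard) := by
      refine (Set.ncard_le_ncard hsub (f5.union (f6.union f7))).trans ?_
      refine (Set.ncard_union_le _ _).trans ?_
      exact Nat.add_le_add_left (Set.ncard_union_le _ _) _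
    have hleR : (({R : ℕ | (R : ℝ) ≤ X ∧ ∃ n : ℕ, Closed n ∧ ∏ p ∈ n.primeFactors, p = R}.ncard
        : ℕ) : ℝ) ≤ (A5.ncard : ℝ) + ((A6.ncard : ℝ) + (A7.ncard : ℝ)) := by exact_mod_cast hle
    have hexp : X * Real.exp (-(T / 90)) ≤ X * Real.exp (-(T / 100)) := by
      apply mul_le_mul_of_nonneg_left _ (by linarith)
      apply Real.exp_le_exp.mpr
      linarith
    have h8 : 3 * (X * Real.exp (-(T / 100))) ≤
        max 3 (2 * Real.exp (Real.log X1 ^ ((1 : ℝ) / 3) / 100)) * X * Real.exp (-(T / 100)) := by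
      rw [mul_assoc]
      apply mul_le_mul_of_nonneg_right (le_max_left _ _)
      exact mul_nonneg (by linarith) (Real.exp_pos _).le
    refine le_trans ?_ h8
    linarith

end Pool.Agent.W252.RD

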