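import Pool.Agent.W223.RD.Stms

set_option autoImplicit false

open Finset

namespace Pool.Agent.W755.RD

lemma geom_mul (p l k : ℕ) : ∑ i ∈ range (l * k), p ^ i =
    (∑ i ∈ range l, p ^ i) * ∑ j ∈ range k, p ^ (l * j) := by
  induction k with
  | zero => simp
  | succ k ih =>
    rw [Nat.mul_succ, Finset.sum_range_add, ih, Finset.sum_range_succ, mul_add]
    congr 1
    rw [Finset.sum_mul]
    refine Finset.sum_congr rfl fun i _ => ?_
    rw [pow_add, mul_comm]

lemma core (n : ℕ) (hn : 1 < n)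
    (hcl : ∀ q : ℕ, q.Prime → q ∣ ArithmeticFunction.sigma 1 n → q ∣ 2 * n) :
    ∃ p m l : ℕ, p.Prime ∧ l.Prime ∧ p ∈ n.primeFactors ∧
      m = ∏ q ∈ n.primeFactors.erase p, q ∧ Squarefree m ∧
      m.primeFactors = n.primeFactors.erase p ∧ (∀ q ∈ m.primeFactors, q < p) ∧ ¬ p ∣ m ∧
      ∏ q ∈ n.primeFactors, q = p * m ∧
      l ∣ n.factorization p + 1 ∧
      ∀ q : ℕ, q.Prime → q ∣ ∑ i ∈ range l, p ^ i → q ∣ 2 * m := by
  have hn0 : n ≠ 0 := by omega
  have hne : n.primeFactors.Nonempty := Nat.nonempty_primeFactors.2 hn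
  obtain ⟨p, hp, hmax⟩ := n.primeFactors.exists_max_image id hne
  have hpp : p.Prime := Nat.prime_of_mem_primeFactors hp
  have hpn : p ∣ n := Nat.dvd_of_mem_primeFactors hp
  have ha : 1 ≤ n.factorization p := (hpp.dvd_iff_one_le_factorization hn0).1 hpn
  have hpr : ∀ q ∈ n.primeFactors.erase p, q.Prime := fun q hq =>
    Nat.prime_of_mem_primeFactors (Finset.mem_of_mem_erase hq)
  have hmf : (∏ q ∈ n.primeFactors.erase p, q).primeFactors = n.primeFactors.erase p :=
    Nat.primeFactors_prod hpr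
  have hsq : Squarefree (∏ q ∈ n.primeFactors.erase p, q) := by
    refine (Finset.squarefree_prod_of_pairwise_isCoprime ?_ ?_)
    · intro q hq r hr hqr
      exact Nat.coprime_iff_isRelPrime.1 ((Nat.coprime_primes (hpr q hq) (hpr r hr)).2 hqr)
    · intro q hq
      exact (hpr q hq).squarefree
  have hndvd : ¬ p ∣ ∏ q ∈ n.primeFactors.erase p, q := by
    intro h
    have h0 : (∏ q ∈ n.primeFactors.erase p, q) ≠ 0 := hsq.ne_zero
    have h1 : p ∈ (∏ q ∈ n.primeFactors.erase p, q).primeFactors :=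
      Nat.mem_primeFactors.2 ⟨hpp, h, h0⟩
    rw [hmf] at h1
    simp at h1
  refine ⟨p, _, (n.factorization p + 1).minFac, hpp, Nat.minFac_prime (by omega), hp, rfl, hsq,
    hmf, ?_, hndvd, (Finset.mul_prod_erase _ _ hp).symm, Nat.minFac_dvd _, ?_⟩
  · intro q hq
    rw [hmf] at hq
    have h1 := hmax q (Finset.mem_of_mem_erase hq)
    have h2 := Finset.ne_of_mem_erase hq
    simp only [id] at h1
    omega
  · intro q hq hqd
    have h1 : (∑ i ∈ range (n.factorization p + 1).minFac, p ^ i) ∣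
        ∑ i ∈ range (n.factorization p + 1), p ^ i := by
      obtain ⟨k, hk⟩ := Nat.minFac_dvd (n.factorization p + 1)
      conv_rhs => rw [hk]
      rw [geom_mul]
      exact Dvd.intro _ rfl
    have h2 : ArithmeticFunction.sigma 1 (p ^ n.factorization p) ∣
        ArithmeticFunction.sigma 1 n := by
      have h3 := Nat.ordProj_mul_ordCompl_eq_self n p
      have h4 : Nat.Coprime (p ^ n.factorization p) (n / p ^ n.factorization p) :=
        Nat.Coprime.pow_left _ (Nat.coprime_ordCompl hpp hn0)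
      have h5 := ArithmeticFunction.isMultiplicative_sigma (k := 1) |>.map_mul_of_coprime h4
      rw [h3] at h5
      rw [h5]
      exact Dvd.intro _ rfl
    have h6 : q ∣ ArithmeticFunction.sigma 1 n := by
      refine hqd.trans (h1.trans (Dvd.dvd.trans ?_ h2))
      rw [ArithmeticFunction.sigma_one_apply_prime_pow hpp]
    have h7 := hcl q hq h6
    have hl : 1 ≤ (n.factorization p + 1).minFac := Nat.minFac_pos _
    have hqp : q ≠ p := by
      rintro rfl
      obtain ⟨l', hl'⟩ : ∃ l', (n.factorization q + 1).minFac = l' + 1 :=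
        ⟨_, (Nat.succ_pred_eq_of_pos hl).symm⟩
      rw [hl', Finset.sum_range_succ'] at hqd
      have h8 : q ∣ ∑ i ∈ range l', q ^ (i + 1) :=
        Finset.dvd_sum fun i _ => dvd_pow_self q (by omega)
      have h9 := (Nat.dvd_add_right h8).1 hqd
      simp at h9
      exact hpp.one_lt.ne' h9
    rcases (Nat.Prime.dvd_mul hq).1 h7 with h | h
    · exact h.mul_right _
    · have h10 : q ∈ n.primeFactors.erase p :=
        Finset.mem_erase.2 ⟨hqp, Nat.mem_primeFactors.2 ⟨hq, h, hn0⟩⟩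
      exact (Finset.dvd_prod_of_mem (fun q => q) h10).mul_left _

theorem tD1 : Pool.Agent.W223.RD.StmtD1 := by
  intro n hn
  obtain ⟨p, m, l, hp, hl, _, _, hsq, _, hlt, hpm, hprod, _, hrep⟩ := core n hn.1 hn.2
  exact ⟨p, m, l, hp, hl, Nat.pos_of_ne_zero hsq.ne_zero, hpm, hprod,
    fun q hq hqm => hlt q (Nat.mem_primeFactors.2 ⟨hq, hqm, hsq.ne_zero⟩), hrep⟩

end Pool.Agent.W755.RD

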