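import Pool.Agent.W223.RD.Stms

set_option autoImplicit false

namespace Pool.Agent.W577.RD.Cmb

open Finset Pool.Agent.W223.RD

noncomputable section

/-- the set for given `m`, `P`, `w` -/
def EE (Z w m P : ℕ) : Set ℕ := {p : ℕ | p.Prime ∧ P ≤ p ∧ p ≤ 2 * P ∧ p ≤ Z ∧
  (∀ q : ℕ, q.Prime → q ∣ m → q < p) ∧ ∃ ℓ : ℕ, ℓ.Prime ∧ Rep m ℓ p}

/-- D3 set -/
def A3 (q P : ℕ) : Set ℕ :=
  {p : ℕ | p.Prime ∧ P ≤ p ∧ p ≤ 2 * P ∧ ∃ j : ℕ, p ^ 8 ≤ q ^ j ∧ q ^ j ∣ p ^ (q - 1) - 1}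

/-- D4 set -/
def A4 (m ℓ Z : ℕ) : Set ℕ := {p : ℕ | p.Prime ∧ p ≤ Z ∧ Rep m ℓ p}

lemma EE_fin (Z w m P : ℕ) : (EE Z w m P).Finite :=
  (Set.finite_Icc 0 Z).subset fun _ hp => ⟨Nat.zero_le _, hp.2.2.2.1⟩

lemma A3_fin (q P : ℕ) : (A3 q P).Finite :=
  (Set.finite_Icc 0 (2 * P)).subset fun _ hp => ⟨Nat.zero_le _, hp.2.2.1⟩

lemma A4_fin (m ℓ Z : ℕ) : (A4 m ℓ Z).Finite :=
  (Set.finite_Icc 0 Z).subset fun _ hp => ⟨Nat.zero_le _, hp.2.1⟩

lemma EE_card (h2 : StmtD2) (h3 : StmtD3) (h4 : StmtD4) (Z w m P : ℕ) (hm : 0 < m) (hZ : 1 ≤ Z)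
    (hP : 2 ≤ P) (hw : m.primeFactors.card ≤ w) :
    ((EE Z w m P).ncard : ℝ) ≤ w * (2 * Real.sqrt P) +
      ((8 * (w + 1) + 1) * (8 * (w + 1) * (Nat.log 2 Z + 1) + 1) ^ (w + 1)) := by
  classical
  let Q : Finset ℕ := m.primeFactors.filter (fun q => 2 < q ∧ q ≤ 2 * P)
  let T : Finset ℕ := (range (8 * (w + 1) + 1)).filter (fun ℓ => 2 ≤ ℓ)
  have hsub : EE Z w m P ⊆ ((Q.biUnion fun q => (A3_fin q P).toFinset) ∪
      (T.biUnion fun ℓ => (A4_fin m ℓ Z).toFinset) : Finset ℕ) := by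
    intro p hp
    obtain ⟨hp1, hp2, hp3, hp4, hp5, ℓ, hℓ, hrep⟩ := hp
    rw [Finset.mem_coe, Finset.mem_union, Finset.mem_biUnion, Finset.mem_biUnion]
    by_cases hl : 8 * (m.primeFactors.card + 1) < ℓ
    · left
      obtain ⟨q, hq, hq2, j, hj1, hj2⟩ := h2 m ℓ p hp1 hℓ hm hp5 hrep hl
      have hqp := hp5 q (Nat.prime_of_mem_primeFactors hq) (Nat.dvd_of_mem_primeFactors hq)
      refine ⟨q, Finset.mem_filter.mpr ⟨hq, hq2, by omega⟩, ?_⟩
      rw [Set.Finite.mem_toFinset]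
      exact ⟨hp1, hp2, hp3, j, hj1, hj2⟩
    · right
      refine ⟨ℓ, Finset.mem_filter.mpr ⟨Finset.mem_range.mpr ?_, hℓ.two_le⟩, ?_⟩
      · have : 8 * (m.primeFactors.card + 1) ≤ 8 * (w + 1) := by omega
        omega
      · rw [Set.Finite.mem_toFinset]
        exact ⟨hp1, hp4, hrep⟩
  have hc := Set.ncard_le_ncard hsub (Finset.finite_toSet _)
  rw [Set.ncard_coe_finset] at hc
  have hc1 : ((EE Z w m P).ncard : ℝ) ≤ (((Q.biUnion fun q => (A3_fin q P).toFinset).card : ℕ) : ℝ)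
      + (((T.biUnion fun ℓ => (A4_fin m ℓ Z).toFinset).card : ℕ) : ℝ) := by
    exact_mod_cast hc.trans (Finset.card_union_le _ _)
  refine hc1.trans (add_le_add ?_ ?_)
  · have e1 : (((Q.biUnion fun q => (A3_fin q P).toFinset).card : ℕ) : ℝ) ≤
        ∑ q ∈ Q, (((A3_fin q P).toFinset.card : ℕ) : ℝ) := by
      exact_mod_cast Finset.card_biUnion_le
    refine e1.trans ?_
    have e2 : ∀ q ∈ Q, (((A3_fin q P).toFinset.card : ℕ) : ℝ) ≤ 2 * Real.sqrt P := by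
      intro q hq
      obtain ⟨hq1, hq2, hq3⟩ := Finset.mem_filter.mp hq
      have e3 := h3 q P (Nat.prime_of_mem_primeFactors hq1) hq2 hP
      have e4 : (A3_fin q P).toFinset.card = (A3 q P).ncard :=
        (Set.ncard_eq_toFinset_card _ _).symm
      rw [e4]
      have e5 : (((A3 q P).ncard : ℕ) : ℝ) ^ 2 ≤ (2 * Real.sqrt P) ^ 2 := by
        rw [mul_pow, Real.sq_sqrt (Nat.cast_nonneg _)]
        have e6 : ((A3 q P).ncard) ^ 2 ≤ 4 * P := by
          have : ((A3 q P).ncard) ^ 2 ≤ 2 * q := e3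
          omega
        have e7 : (((A3 q P).ncard : ℕ) : ℝ) ^ 2 ≤ 4 * P := by exact_mod_cast e6
        linarith
      exact (sq_le_sq₀ (Nat.cast_nonneg _) (by positivity)).mp e5
    refine (Finset.sum_le_sum e2).trans ?_
    rw [Finset.sum_const, nsmul_eq_mul]
    apply mul_le_mul_of_nonneg_right _ (by positivity)
    have : Q.card ≤ w := (Finset.card_filter_le _ _).trans hw
    exact_mod_cast this
  · have e1 : (((T.biUnion fun ℓ => (A4_fin m ℓ Z).toFinset).card : ℕ) : ℝ) ≤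
        ∑ ℓ ∈ T, (((A4_fin m ℓ Z).toFinset.card : ℕ) : ℝ) := by
      exact_mod_cast Finset.card_biUnion_le
    refine e1.trans ?_
    have e2 : ∀ ℓ ∈ T, (((A4_fin m ℓ Z).toFinset.card : ℕ) : ℝ) ≤
        ((8 * (w + 1) * (Nat.log 2 Z + 1) + 1) ^ (w + 1) : ℝ) := by
      intro ℓ hℓ
      obtain ⟨hl1, hl2⟩ := Finset.mem_filter.mp hℓ
      rw [Finset.mem_range] at hl1
      have e3 := h4 m ℓ Z hm hl2 hZ
      have e4 : (A4_fin m ℓ Z).toFinset.card = (A4 m ℓ Z).ncard :=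
        (Set.ncard_eq_toFinset_card _ _).symm
      rw [e4]
      have e5 : (A4 m ℓ Z).ncard ≤ (8 * (w + 1) * (Nat.log 2 Z + 1) + 1) ^ (w + 1) := by
        refine (e3 : (A4 m ℓ Z).ncard ≤ _).trans ?_
        refine (Nat.pow_le_pow_left ?_ _).trans (Nat.pow_le_pow_right (by omega) (by omega))
        have : ℓ * (Nat.log 2 Z + 1) ≤ 8 * (w + 1) * (Nat.log 2 Z + 1) :=
          Nat.mul_le_mul_right _ (by omega)
        omega
      exact_mod_cast e5
    refine (Finset.sum_le_sum e2).trans ?_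
    rw [Finset.sum_const, nsmul_eq_mul]
    apply mul_le_mul_of_nonneg_right _ (by positivity)
    have : T.card ≤ 8 * (w + 1) + 1 := (Finset.card_filter_le _ _).trans (by simp)
    exact_mod_cast this

/-- the set of D7 -/
def SS (X : ℝ) : Set ℕ := {R : ℕ | (R : ℝ) ≤ X ∧
    (R.primeFactors.card : ℝ) ≤ Real.log X ^ ((1 : ℝ) / 3) / (10 * Real.log (Real.log X)) ∧
    ∃ p m ℓ : ℕ, p.Prime ∧ ℓ.Prime ∧ 0 < m ∧ ¬ p ∣ m ∧ R = p * m ∧
      (∀ q : ℕ, q.Prime → q ∣ m → q < p) ∧ Rep m ℓ p ∧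
      Real.exp (Real.log X ^ ((1 : ℝ) / 3)) ≤ (p : ℝ)}

theorem comb (h2 : StmtD2) (h3 : StmtD3) (h4 : StmtD4) (X P₀ : ℝ) (hX : 3 ≤ X) (hP₀ : 2 ≤ P₀)
    (hP : P₀ = Real.exp (Real.log X ^ ((1 : ℝ) / 3)) / 2) (w l2 : ℕ)
    (hw : ∀ k : ℕ, (k : ℝ) ≤ Real.log X ^ ((1 : ℝ) / 3) / (10 * Real.log (Real.log X)) → k ≤ w)
    (hl2 : l2 = Nat.log 2 ⌊X⌋₊) :
    ((SS X).ncard : ℝ) ≤ ((l2 + 1 : ℕ) : ℝ) * (X / P₀ * (w * (2 * Real.sqrt P₀)) +
      X / P₀ * ((8 * (w + 1) + 1) * (8 * (w + 1) * (l2 + 1) + 1) ^ (w + 1))) := by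
  classical
  have hX0 : 0 < X := by linarith
  set Z := ⌊X⌋₊ with hZd
  have hZ : 1 ≤ Z := Nat.le_floor (by push_cast; linarith)
  let I : Finset ℕ := (range (l2 + 1)).filter (fun i => P₀ < (2:ℝ) ^ i)
  let MM : ℕ → Finset ℕ := fun i =>
    (Finset.Icc 1 ⌊X / 2 ^ i⌋₊).filter (fun m => m.primeFactors.card ≤ w)
  let U : Finset ℕ := I.biUnion fun i => (MM i).biUnion fun m =>
    (EE_fin Z w m (2 ^ i)).toFinset.image (fun p => p * m)
  have hsub : SS X ⊆ (U : Set ℕ) := by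
    rintro R ⟨hRX, hRw, p, m, ℓ, hp, hℓ, hm, hpm, hR, hq, hrep, hpe⟩
    have hpR : p ∣ R := ⟨m, hR⟩
    have hR0 : R ≠ 0 := by rw [hR]; exact Nat.mul_ne_zero hp.ne_zero hm.ne'
    have hRZ : R ≤ Z := Nat.le_floor hRX
    have hpR' : p ≤ R := Nat.le_of_dvd (Nat.pos_of_ne_zero hR0) hpR
    have hpZ : p ≤ Z := hpR'.trans hRZ
    set i := Nat.log 2 p with hi
    have hi1 : 2 ^ i ≤ p := Nat.pow_log_le_self 2 hp.ne_zero
    have hi2 : p < 2 ^ (i + 1) := Nat.lt_pow_succ_log_self (by norm_num) p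
    rw [Finset.mem_coe, Finset.mem_biUnion]
    refine ⟨i, Finset.mem_filter.mpr ⟨?_, ?_⟩, ?_⟩
    · rw [Finset.mem_range, hl2]
      exact Nat.lt_succ_of_le (Nat.log_mono_right hpZ)
    · have h5 : (p:ℝ) < 2 * 2 ^ i := by
        have : (p:ℝ) < (2:ℝ) ^ (i + 1) := by exact_mod_cast hi2
        rw [pow_succ] at this
        linarith
      rw [hP]
      linarith
    · rw [Finset.mem_biUnion]
      have hmR : m.primeFactors ⊆ R.primeFactors :=
        Nat.primeFactors_mono ⟨p, by rw [hR, mul_comm]⟩ hR0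
      refine ⟨m, Finset.mem_filter.mpr ⟨Finset.mem_Icc.mpr ⟨hm, ?_⟩, ?_⟩, ?_⟩
      · apply Nat.le_floor
        rw [le_div_iff₀ (by positivity)]
        have h6 : (m:ℝ) * 2 ^ i ≤ m * p := by
          apply mul_le_mul_of_nonneg_left _ (Nat.cast_nonneg _)
          exact_mod_cast hi1
        have h7 : (m:ℝ) * p = R := by rw [hR]; push_cast; ring
        linarith
      · exact (Finset.card_le_card hmR).trans (hw _ hRw)
      · rw [Finset.mem_image]
        refine ⟨p, ?_, hR.symm⟩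
        rw [Set.Finite.mem_toFinset]
        exact ⟨hp, hi1, by rw [pow_succ] at hi2; omega, hpZ, hq, ℓ, hℓ, hrep⟩
  have hc := Set.ncard_le_ncard hsub (Finset.finite_toSet _)
  rw [Set.ncard_coe_finset] at hc
  set D : ℝ := ((8 * (w + 1) + 1) * (8 * (w + 1) * (l2 + 1) + 1) ^ (w + 1) : ℝ) with hD
  have hD0 : 0 ≤ D := by positivity
  have hin : ∀ i ∈ I, ((((MM i).biUnion fun m =>
      (EE_fin Z w m (2 ^ i)).toFinset.image (fun p => p * m)).card : ℕ) : ℝ) ≤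
      X / P₀ * (w * (2 * Real.sqrt P₀)) + X / P₀ * D := by
    intro i hi
    have hiP := (Finset.mem_filter.mp hi).2
    have hP2 : 2 ≤ 2 ^ i := by
      have : (2:ℝ) ≤ 2 ^ i := by linarith
      exact_mod_cast this
    have g1 : ((((MM i).biUnion fun m =>
      (EE_fin Z w m (2 ^ i)).toFinset.image (fun p => p * m)).card : ℕ) : ℝ) ≤
        ∑ m ∈ MM i, ((((EE_fin Z w m (2 ^ i)).toFinset.image (fun p => p * m)).card : ℕ) : ℝ) := by
      exact_mod_cast Finset.card_biUnion_le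
    refine g1.trans ?_
    have g2 : ∀ m ∈ MM i, ((((EE_fin Z w m (2 ^ i)).toFinset.image (fun p => p * m)).card : ℕ) : ℝ)
        ≤ w * (2 * Real.sqrt (2 ^ i)) + D := by
      intro m hm
      obtain ⟨hm1, hm2⟩ := Finset.mem_filter.mp hm
      have g3 := EE_card h2 h3 h4 Z w m (2 ^ i) (Finset.mem_Icc.mp hm1).1 hZ hP2 hm2
      have g4 : (((EE_fin Z w m (2 ^ i)).toFinset.image (fun p => p * m)).card) ≤
          (EE Z w m (2 ^ i)).ncard := by
        rw [Set.ncard_eq_toFinset_card _ (EE_fin Z w m (2 ^ i))]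
        exact Finset.card_image_le
      have g5 : ((((EE_fin Z w m (2 ^ i)).toFinset.image (fun p => p * m)).card : ℕ) : ℝ) ≤
          ((EE Z w m (2 ^ i)).ncard : ℝ) := by exact_mod_cast g4
      refine g5.trans (g3.trans (le_of_eq ?_))
      rw [← hl2]
      push_cast
      rfl
    refine (Finset.sum_le_sum g2).trans ?_
    rw [Finset.sum_const, nsmul_eq_mul]
    have g6 : ((MM i).card : ℝ) ≤ X / 2 ^ i := by
      have : (MM i).card ≤ ⌊X / 2 ^ i⌋₊ := (Finset.card_filter_le _ _).trans (by simp)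
      have h8 : (((MM i).card : ℕ) : ℝ) ≤ ((⌊X / 2 ^ i⌋₊ : ℕ) : ℝ) := by exact_mod_cast this
      exact h8.trans (Nat.floor_le (by positivity))
    have hs0 : 0 < Real.sqrt P₀ := Real.sqrt_pos.mpr (by linarith)
    have hs : Real.sqrt P₀ ≤ Real.sqrt (2 ^ i) := Real.sqrt_le_sqrt hiP.le
    have hs1 : 0 < Real.sqrt ((2:ℝ) ^ i) := lt_of_lt_of_le hs0 hs
    have q0 : Real.sqrt P₀ * Real.sqrt P₀ = P₀ := Real.mul_self_sqrt (by linarith)
    have q1 : Real.sqrt ((2:ℝ) ^ i) * Real.sqrt ((2:ℝ) ^ i) = 2 ^ i :=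
      Real.mul_self_sqrt (by positivity)
    calc ((MM i).card : ℝ) * (w * (2 * Real.sqrt (2 ^ i)) + D)
        ≤ X / 2 ^ i * (w * (2 * Real.sqrt (2 ^ i)) + D) :=
          mul_le_mul_of_nonneg_right g6 (by positivity)
      _ = X / 2 ^ i * (w * (2 * Real.sqrt (2 ^ i))) + X / 2 ^ i * D := by ring
      _ ≤ _ := by
          apply add_le_add
          · have f1 : X / 2 ^ i * (w * (2 * Real.sqrt (2 ^ i))) =
                2 * w * X / Real.sqrt (2 ^ i) := by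
              conv_lhs => rw [← q1]
              rw [Real.sqrt_mul_self hs1.le]
              field_simp
            have f2 : X / P₀ * (w * (2 * Real.sqrt P₀)) = 2 * w * X / Real.sqrt P₀ := by
              conv_lhs => rw [← q0]
              rw [Real.sqrt_mul_self hs0.le]
              field_simp
            rw [f1, f2]
            exact div_le_div_of_nonneg_left (by positivity) hs0 hs
          · apply mul_le_mul_of_nonneg_right _ hD0
            exact div_le_div_of_nonneg_left hX0.le (by linarith) hiP.le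
  calc ((SS X).ncard : ℝ) ≤ ((U.card : ℕ) : ℝ) := by exact_mod_cast hc
    _ ≤ ∑ i ∈ I, ((((MM i).biUnion fun m =>
      (EE_fin Z w m (2 ^ i)).toFinset.image (fun p => p * m)).card : ℕ) : ℝ) := by
        exact_mod_cast Finset.card_biUnion_le
    _ ≤ ∑ i ∈ I, (X / P₀ * (w * (2 * Real.sqrt P₀)) + X / P₀ * D) := Finset.sum_le_sum hin
    _ = (I.card : ℝ) * (X / P₀ * (w * (2 * Real.sqrt P₀)) + X / P₀ * D) := by
        rw [Finset.sum_const, nsmul_eq_mul]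
    _ ≤ _ := by
        apply mul_le_mul_of_nonneg_right
        · have : I.card ≤ l2 + 1 := (Finset.card_filter_le _ _).trans (by simp)
          exact_mod_cast this
        · positivity

end

end Pool.Agent.W577.RD.Cmb
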