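import Pool.Agent.W223.RD.C7a

set_option autoImplicit false

namespace Pool.Agent.W577.RD.D7

open Finset Pool.Agent.W223.RD Pool.Agent.W577.RD.Cmb

noncomputable section

/-- the analytic half -/
def ANA : Prop := ∃ X0 : ℝ, ∀ X : ℝ, X0 ≤ X → ∀ w N l2 : ℕ,
  (w : ℝ) ≤ Real.log X ^ ((1 : ℝ) / 3) / (10 * Real.log (Real.log X)) →
  (l2 : ℝ) ≤ 2 * Real.log X → (N : ℝ) ≤ 2 * Real.log X + 2 →
  ∀ P : ℝ, Real.exp (Real.log X ^ ((1 : ℝ) / 3)) / 2 ≤ P →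
  N * (X / P * (w * (2 * Real.sqrt P)) +
    X / P * ((8 * (w + 1) + 1) * (8 * (w + 1) * (l2 + 1) + 1) ^ (w + 1))) ≤
    X * Real.exp (-(Real.log X ^ ((1 : ℝ) / 3) / 90))

theorem tD7' (hD2 : StmtD2) (hD3 : StmtD3) (hD4 : StmtD4) (hana : ANA) : StmtD7 := by
  obtain ⟨X0, hX0⟩ := hana
  refine ⟨max (max X0 3) (Real.exp 8), (le_max_right _ _).trans (le_max_left _ _), ?_⟩
  intro X hX
  have h1 : X0 ≤ X := (le_max_left _ _).trans ((le_max_left _ _).trans hX)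
  have h3 : 3 ≤ X := (le_max_right _ _).trans ((le_max_left _ _).trans hX)
  have h8 : Real.exp 8 ≤ X := (le_max_right _ _).trans hX
  have hXp : 0 < X := by linarith
  have hL8 : 8 ≤ Real.log X := by
    rw [Real.le_log_iff_exp_le hXp]; exact h8
  have hcub : 2 ≤ Real.log X ^ ((1 : ℝ) / 3) := by
    have e1 : (8 : ℝ) ^ ((1 : ℝ) / 3) = 2 := by
      rw [show (8 : ℝ) = 2 ^ (3 : ℝ) by norm_num, ← Real.rpow_mul (by norm_num)]
      norm_num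
    rw [← e1]
    exact Real.rpow_le_rpow (by norm_num) hL8 (by norm_num)
  have hP₀ : 2 ≤ Real.exp (Real.log X ^ ((1 : ℝ) / 3)) / 2 := by
    have e2 : Real.exp 2 ≤ Real.exp (Real.log X ^ ((1 : ℝ) / 3)) := Real.exp_le_exp.mpr hcub
    have e3 : (4 : ℝ) ≤ Real.exp 2 := by
      have e4 : (2 : ℝ) ≤ Real.exp 1 := by
        have := Real.add_one_le_exp (1 : ℝ)
        linarith
      have e5 : Real.exp 2 = Real.exp 1 * Real.exp 1 := by
        rw [← Real.exp_add]; norm_num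
      rw [e5]
      nlinarith
    linarith
  have hll : 0 < Real.log (Real.log X) := Real.log_pos (by linarith)
  set K : ℝ := Real.log X ^ ((1 : ℝ) / 3) / (10 * Real.log (Real.log X)) with hK
  have hK0 : 0 ≤ K := by positivity
  have hl2 : ((Nat.log 2 ⌊X⌋₊ : ℕ) : ℝ) ≤ 2 * Real.log X := by
    have hZ : ⌊X⌋₊ ≠ 0 := by
      have : 1 ≤ ⌊X⌋₊ := Nat.le_floor (by push_cast; linarith)
      omega
    have e1 : 2 ^ (Nat.log 2 ⌊X⌋₊) ≤ ⌊X⌋₊ := Nat.pow_log_le_self 2 hZ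
    have e2 : ((2 : ℝ)) ^ (Nat.log 2 ⌊X⌋₊) ≤ X :=
      le_trans (by exact_mod_cast e1) (Nat.floor_le hXp.le)
    have e3 := Real.log_le_log (by positivity) e2
    rw [Real.log_pow] at e3
    have e4 := Real.log_two_gt_d9
    have e5 : (0:ℝ) ≤ ((Nat.log 2 ⌊X⌋₊ : ℕ) : ℝ) := Nat.cast_nonneg _
    nlinarith
  have hc := comb hD2 hD3 hD4 X _ h3 hP₀ rfl ⌊K⌋₊ (Nat.log 2 ⌊X⌋₊) (fun k hk => Nat.le_floor hk) rfl
  refine le_trans hc ?_
  exact hX0 X h1 ⌊K⌋₊ (Nat.log 2 ⌊X⌋₊ + 1) (Nat.log 2 ⌊X⌋₊) (Nat.floor_le hK0) hl2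
    (by push_cast; linarith) _ le_rfl

end

end Pool.Agent.W577.RD.D7
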